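import Mathlib
import Pool.Agent.Helper35.PI.St2

/-!
Project PI (MP_b2fa09_gt), module G3: jets of the first derivatives of a graphical solution of
mean curvature flow.
-/

namespace Helper4.PI

open Helper35.PI
open scoped ContDiff Manifold Topology ENNReal BigOperators
open MeasureTheory Set Filter

section G3

variable {n : ℕ} {V : Type*} [NormedAddCommGroup V] [NormedSpace ℝ V]

lemma g3_le2 : (2 : WithTop ℕ∞) ≤ ((⊤ : ℕ∞) : WithTop ℕ∞) := by
  have h : ((2 : ℕ∞) : WithTop ℕ∞) ≤ ((⊤ : ℕ∞) : WithTop ℕ∞) := WithTop.coe_le_coe.2 le_top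
  exact h

lemma g3_le4 : (4 : WithTop ℕ∞) ≤ ((⊤ : ℕ∞) : WithTop ℕ∞) := by
  have h : ((4 : ℕ∞) : WithTop ℕ∞) ≤ ((⊤ : ℕ∞) : WithTop ℕ∞) := WithTop.coe_le_coe.2 le_top
  exact h

/-- directional derivatives of a smooth function are smooth -/
lemma g3_smooth_dir {φ : EE n × ℝ → V} {z : EE n × ℝ} (h : ContDiffAt ℝ ∞ φ z)
    (v : EE n × ℝ) : ContDiffAt ℝ ∞ (fun z' => fderiv ℝ φ z' v) z := by
  have h1 : ContDiffAt ℝ ∞ (fderiv ℝ φ) z := h.fderiv_right (by simp)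
  exact h1.clm_apply contDiffAt_const

/-- directional derivatives commute -/
lemma g3_comm {φ : EE n × ℝ → V} {z : EE n × ℝ} (h : ContDiffAt ℝ 2 φ z)
    (v w : EE n × ℝ) :
    fderiv ℝ (fun z' => fderiv ℝ φ z' v) z w = fderiv ℝ (fun z' => fderiv ℝ φ z' w) z v := by
  have h1 : ContDiffAt ℝ 1 (fderiv ℝ φ) z := h.fderiv_right (by norm_num)
  have h2 : DifferentiableAt ℝ (fderiv ℝ φ) z := h1.differentiableAt (by norm_num)
  have h3 : IsSymmSndFDerivAt ℝ φ z := h.isSymmSndFDerivAt (by simp)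
  have h4 : ∀ v w : EE n × ℝ, fderiv ℝ (fun z' => fderiv ℝ φ z' v) z w
      = fderiv ℝ (fderiv ℝ φ) z w v := by
    intro v w
    have h5 : HasFDerivAt (fun z' => fderiv ℝ φ z' v)
        ((ContinuousLinearMap.apply ℝ V v).comp (fderiv ℝ (fderiv ℝ φ) z)) z :=
      (ContinuousLinearMap.apply ℝ V v).hasFDerivAt.comp z h2.hasFDerivAt
    rw [h5.fderiv]
    rfl
  rw [h4 v w, h4 w v]
  exact h3 w v

/-- Eventually the function is twice continuously differentiable. -/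
lemma g3_ev2 {φ : EE n × ℝ → V} {z : EE n × ℝ} (h : ContDiffAt ℝ ∞ φ z) :
    ∀ᶠ z' in 𝓝 z, ContDiffAt ℝ 2 φ z' := by
  have h1 : ContDiffAt ℝ 2 φ z := h.of_le g3_le2
  exact h1.eventually (by simp)

/-- the two ways of taking `∂_i ∂_a ∂_a` -/
lemma g3_third {φ : EE n × ℝ → V} {z : EE n × ℝ} (h : ContDiffAt ℝ ∞ φ z) (i a : Fin n) :
    jg (fun z' => jgg φ z' a a) z i = jgg (fun z' => jg φ z' i) z a a := by
  have h1 : ContDiffAt ℝ ∞ (fun z' => fderiv ℝ φ z' ((ee a, 0) : EE n × ℝ)) z :=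
    g3_smooth_dir h _
  have h2 := g3_comm (h1.of_le g3_le2 :
    ContDiffAt ℝ 2 (fun z' => fderiv ℝ φ z' ((ee a, 0) : EE n × ℝ)) z)
    ((ee a, 0) : EE n × ℝ) ((ee i, 0) : EE n × ℝ)
  have h3 : (fun z' => fderiv ℝ (fun z'' => fderiv ℝ φ z'' ((ee a, 0) : EE n × ℝ)) z'
      ((ee i, 0) : EE n × ℝ)) =ᶠ[𝓝 z]
      (fun z' => fderiv ℝ (fun z'' => fderiv ℝ φ z'' ((ee i, 0) : EE n × ℝ)) z'
      ((ee a, 0) : EE n × ℝ)) := by
    filter_upwards [g3_ev2 h] with z' hz'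
    exact g3_comm hz' _ _
  rw [h3.fderiv_eq] at h2
  exact h2

end G3

/-- G3. jets of the first derivatives -/
theorem hG3 (hG0 : StG0) (hG2 : StG2) (hJA : StJA) (hJB : StJB) : StG3 := by
  intro n N x₀ L u t₀ hu
  have hs : ContDiffAt ℝ ∞ u ((0 : EE n), t₀) := hu.smooth
  have hs1 : ∀ i : Fin n, ContDiffAt ℝ ∞ (fun z => jg u z i) ((0 : EE n), t₀) :=
    fun i => g3_smooth_dir hs _
  have hs2 : ∀ i j : Fin n, ContDiffAt ℝ ∞ (fun z => jgg u z i j) ((0 : EE n), t₀) :=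
    fun i j => g3_smooth_dir (hs1 j) _
  refine ⟨fun i => ⟨(hs1 i).of_le g3_le4, ?_⟩,
    fun i j => (hs2 i j).of_le g3_le4⟩
  -- the differentiated equation
  have e1 : jt (fun z => jg u z i) ((0 : EE n), t₀) = jg (jt u) ((0 : EE n), t₀) i :=
    g3_comm (hs.of_le g3_le2) _ _
  have e2 : jg (jt u) ((0 : EE n), t₀) i
      = jg (fun z => ∑ a, ∑ b, GIf x₀ L u a b z • jgg u z a b) ((0 : EE n), t₀) i := by
    have h : jt u =ᶠ[𝓝 ((0 : EE n), t₀)]
        (fun z => ∑ a, ∑ b, GIf x₀ L u a b z • jgg u z a b) := hu.pde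
    unfold jg
    rw [h.fderiv_eq]
  have hterm : ∀ a b : Fin n, HasFDerivAt (fun z => GIf x₀ L u a b z • jgg u z a b)
      (GIf x₀ L u a b ((0 : EE n), t₀) • fderiv ℝ (fun z => jgg u z a b) ((0 : EE n), t₀)
        + (fderiv ℝ (GIf x₀ L u a b) ((0 : EE n), t₀)).smulRight
          (jgg u ((0 : EE n), t₀) a b)) ((0 : EE n), t₀) := by
    intro a b
    have d1 : DifferentiableAt ℝ (GIf x₀ L u a b) ((0 : EE n), t₀) :=
      (hG0 n N x₀ L u t₀ hu a b).1.differentiableAt (by simp)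
    have d2 : DifferentiableAt ℝ (fun z => jgg u z a b) ((0 : EE n), t₀) :=
      (hs2 a b).differentiableAt (by simp)
    exact d1.hasFDerivAt.smul d2.hasFDerivAt
  have hsum : HasFDerivAt (fun z => ∑ a, ∑ b, GIf x₀ L u a b z • jgg u z a b)
      (∑ a, ∑ b, (GIf x₀ L u a b ((0 : EE n), t₀) •
        fderiv ℝ (fun z => jgg u z a b) ((0 : EE n), t₀)
        + (fderiv ℝ (GIf x₀ L u a b) ((0 : EE n), t₀)).smulRight
          (jgg u ((0 : EE n), t₀) a b))) ((0 : EE n), t₀) :=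
    HasFDerivAt.fun_sum fun a _ => HasFDerivAt.fun_sum fun b _ => hterm a b
  have e3 : jg (fun z => ∑ a, ∑ b, GIf x₀ L u a b z • jgg u z a b) ((0 : EE n), t₀) i
      = ∑ a, ∑ b, (GIf x₀ L u a b ((0 : EE n), t₀) •
          jg (fun z => jgg u z a b) ((0 : EE n), t₀) i
        + jg (GIf x₀ L u a b) ((0 : EE n), t₀) i • jgg u ((0 : EE n), t₀) a b) := by
    have h := congrArg (fun T : (EE n × ℝ) →L[ℝ] EE N => T ((ee i, 0) : EE n × ℝ)) hsum.fderiv
    simp only [sum_apply, add_apply, smul_apply, ContinuousLinearMap.smulRight_apply] at h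
    exact h
  have e4 : ∑ a, ∑ b, (GIf x₀ L u a b ((0 : EE n), t₀) •
          jg (fun z => jgg u z a b) ((0 : EE n), t₀) i
        + jg (GIf x₀ L u a b) ((0 : EE n), t₀) i • jgg u ((0 : EE n), t₀) a b)
      = ∑ a, jg (fun z => jgg u z a a) ((0 : EE n), t₀) i := by
    refine Finset.sum_congr rfl fun a _ => ?_
    have h : ∀ b : Fin n, (GIf x₀ L u a b ((0 : EE n), t₀) •
          jg (fun z => jgg u z a b) ((0 : EE n), t₀) i
        + jg (GIf x₀ L u a b) ((0 : EE n), t₀) i • jgg u ((0 : EE n), t₀) a b)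
        = if a = b then jg (fun z => jgg u z a b) ((0 : EE n), t₀) i else 0 := by
      intro b
      obtain ⟨-, g0, g1, -, -⟩ := hG0 n N x₀ L u t₀ hu a b
      rw [g0, g1 i, zero_smul, add_zero]
      split_ifs with hab
      · rw [one_smul]
      · rw [zero_smul]
    rw [Finset.sum_congr rfl fun b _ => h b]
    simp
  unfold jh
  rw [e1, e2, e3, e4, sub_eq_zero]
  exact Finset.sum_congr rfl fun a _ => g3_third hs i a

end Helper4.PI
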