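import Mathlib
import Pool.Agent.Helper35.PI.St1

/-! # Project PI, module LOSS -/

set_option autoImplicit false

namespace Helper4.PI

open Helper35.PI

private theorem loss_real (P Q S s r l t : ℝ) (hP : 0 ≤ P) (hQ0 : 0 ≤ Q)
    (h1 : 2 * P + Q ≤ 2 * s * r)
    (h2 : 2 * t * (P + Q) + S + t ^ 2 * s ^ 2 ≤ 3 / 2 * (t * s + r) ^ 2)
    (hl0 : 0 ≤ l) (hl1 : l ≤ 1) (ht0 : 0 ≤ t) (ht : t ≤ (1 + l) / 2) :
    (1 + l) * Q + 2 * l * P + S ≤
      t ^ 2 / 2 * s ^ 2 + (2 + 2 * l - t) * s * r + 3 / 2 * r ^ 2 := by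
  have hQ2 : Q ≤ 2 * s * r := by linarith
  have key : (1 + l - 2 * t) * Q + 2 * (l - t) * P ≤ (2 + 2 * l - 4 * t) * (s * r) := by
    rcases le_total t l with h | h
    · have e1 : (l - t) * (2 * P + Q) ≤ (l - t) * (2 * s * r) :=
        mul_le_mul_of_nonneg_left h1 (by linarith)
      have e2 : (1 - t) * Q ≤ (1 - t) * (2 * s * r) :=
        mul_le_mul_of_nonneg_left hQ2 (by linarith)
      linarith [e1, e2]
    · have e1 : (1 + l - 2 * t) * Q ≤ (1 + l - 2 * t) * (2 * s * r) :=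
        mul_le_mul_of_nonneg_left hQ2 (by linarith)
      have e2 : 0 ≤ (t - l) * P := mul_nonneg (by linarith) hP
      linarith [e1, e2]
  linarith [key, h2]

theorem hLOSS (hQ : StQP) (hA : StLLA) : StLOSS := by
  intro n N m B hm hB l t hl0 hl1 ht0 ht
  exact loss_real _ _ _ _ _ l t (sq_nonneg _)
    (Finset.sum_nonneg fun i _ => Finset.sum_nonneg fun j _ => sq_nonneg _)
    (hQ n N m B hm hB) (hA n N m B hm hB t ht0) hl0 hl1 ht0 ht

end Helper4.PI
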